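import Mathlib
import Pool.Agent.helper60.MW.Spec

set_option autoImplicit false

/-!
Row ENM of the project MW (Moser's worm problem without convexity): the energy is at most the mass.
-/

namespace Pool.Agent.MW

/-- ENM -/
theorem ENM (hMSC : MSC_stmt) : ENM_stmt := by
  intro D hD L
  have h1 : en D L ≤ mass D L := by
    unfold en mass
    refine ENNReal.tsum_le_tsum (fun s => ENNReal.ofReal_le_ofReal ?_)
    have h0 : 0 ≤ D L s.1 s.2 := hD.nonneg L s.1 s.2
    have h2 : D L s.1 s.2 ≤ 1 := hD.le_one L s.1 s.2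
    have h3 : D L s.1 s.2 ^ 2 ≤ D L s.1 s.2 := by nlinarith
    exact div_le_div_of_nonneg_right h3 (by positivity)
  exact h1.trans (le_of_eq (hMSC D hD L))

end Pool.Agent.MW
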