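import Mathlib
import Pool.Agent.helper60.MW.Spec

set_option autoImplicit false

/-!
Row LV1 of the project MW (Moser's worm problem without convexity): from level 0 to level 1 of the chain.
-/

namespace Pool.Agent.MW

open MeasureTheory Set Pool.Agent.helper17.Worm

/-- LV1 -/
theorem LV1 (hSTP : STP_stmt) (hSEQ : SEQ_stmt) (hINF : INF_stmt) : LV1_stmt := by
  classical
  intro ι _ X hX hX1 κ a P K p G hκ hκ2 ha ha8 hP hK hp hexp hG
  obtain ⟨⟨ha0, hm0⟩, haa, hmm, hkk, hapos, hale, _, _, hss, hss1, hss2, hhpos, hs0⟩ :=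
    hSEQ κ a P (Fintype.card ι) hκ hκ2 ha hP
  have h1 : a = ((2 * kk P 1 : ℕ) : ℝ) * aa P a 1 := by
    have := haa 0
    rw [ha0] at this
    exact this
  have hq : 1 ≤ 2 * kk P 1 := by
    have := hkk 1
    omega
  have hG' : ∀ g ∈ G, K ≤ nbad X g p a (ss κ 0) := by
    intro g hg
    rw [hs0]
    exact hG g hg
  obtain ⟨p', hp'1, hp'2⟩ := hSTP ι X hX hX1 1 (2 * kk P 1) K p a (aa P a 1) (ss κ 0) (hh κ 0) G
    le_rfl hq hK (hapos 1) h1 (by linarith) (fun i => (hp i).trans (by norm_num)) (hss2 0).1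
    (hhpos 0) (hss1 0) (by simpa using hexp) hG'
  have hk0 : kk P 0 = 1 := by simp [kk]
  refine ⟨ι × Fin 1, inferInstance, p', Finset.univ.image p', ?_, ?_, ?_, ?_, ?_⟩
  · rw [hmm 0, hm0, hk0]
    simp
  · intro l
    exact Finset.mem_image_of_mem _ (Finset.mem_univ l)
  · intro l
    rw [Finset.sum_range_one, ha0]
    have h2 : ‖p' l‖ ≤ ‖p' l - p l.1‖ + ‖p l.1‖ := by
      have := norm_add_le (p' l - p l.1) (p l.1)
      simpa using this
    have h3 := hp'1 l
    have h4 := hp l.1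
    linarith
  · intro ℓ A hA hpA
    have h2 := hINF (ι × Fin 1) ℓ A (fun e => p e.1) p' hA (fun e => hpA e.1)
    have h3 : 2 * ∑ e : ι × Fin 1, ‖p' e - p e.1‖ ≤
        3 * ∑ j ∈ Finset.range 1, (mm P (Fintype.card ι) j : ℝ) * kk P j * aa P a j := by
      rw [Finset.sum_range_one, hm0, hk0, ha0]
      have h4 : ∑ e : ι × Fin 1, ‖p' e - p e.1‖ ≤ ∑ _e : ι × Fin 1, (3 / 2 * a) :=
        Finset.sum_le_sum (fun e _ => hp'1 e)
      rw [Finset.sum_const] at h4
      simp only [Finset.card_univ, Fintype.card_prod, Fintype.card_fin, nsmul_eq_mul,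
        Nat.cast_one, mul_one] at h4 ⊢
      linarith
    have h5 : (A ∪ ↑(Finset.univ.image p') : Set ℂ) = A ∪ range p' := by
      rw [Finset.coe_image, Finset.coe_univ, image_univ]
    rw [h5]
    obtain ⟨h6, f, hf, hf2⟩ := h2
    refine ⟨by linarith, f, hf, hf2.trans (image_mono (Icc_subset_Icc_right ?_))⟩
    linarith
  · intro g hg
    obtain ⟨e, he⟩ := hp'2 g hg
    refine ⟨e, ?_⟩
    rw [hss 0]
    exact he

end Pool.Agent.MW
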